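import Pool.Agent.TH384.SD.Alg

/-!
# The search for `k = 8`
-/

set_option autoImplicit false

namespace Pool.Agent.TH384.SD

set_option maxRecDepth 100000 in
theorem c8 : search 8 1324055902416102970674609367438786815 87452568298681185110087274109964430344449 54 [7, 112, 0] 5731553873727266190930009857892958800344843011 454079695648044772702907457690941339950308311662556724196145316700327281025 1362239086944134318108722373812138150107757922934430548052100818252324766338 1287709824406359177274895339074879608 5 = false := by
  decide +kernel

end Pool.Agent.TH384.SD
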