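import Pool.Agent.TH384.SD.Alg

/-!
# The search for `k = 9`
-/

set_option autoImplicit false

namespace Pool.Agent.TH384.SD

set_option maxRecDepth 100000 in
theorem c9 : search 9 11395724267687352188722688754123064480748012031 2999001359803012788153961276733812756333973578187265 71 [8, 144, 0] 786179209468280393376196486811938812634682171601056957955 66879965175013847184365608841856703783642581044200928637459165010922775247182117178075464729345 200639895525041541553096826525570111552971949248204859941640002457157274373080536813623639934210 11239619051297637826731938726214508289232732408 6 = false := by
  decide +kernel

end Pool.Agent.TH384.SD
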