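import Mathlib.Data.ZMod.Basic

/-!
# Exhaustive search for Sidon sets in `ZMod k × ZMod k`: the algorithm

An element `(x, y)`, `0 ≤ x, y < k`, has the code `2 k x + y`.  Sets are bit masks of codes.
The definitions use the recursors, so that the kernel evaluates them fast.
-/

set_option autoImplicit false

namespace Pool.Agent.TH384.SD

/-- evaluate `n` first -/
noncomputable def force (n : ℕ) (f : ℕ → Bool) : Bool :=
  Nat.rec (motive := fun _ => Bool) (f 0) (fun m _ => f (Nat.succ m)) n

/-- `if c then a else b` -/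
noncomputable def ite' (c a b : Bool) : Bool := Bool.rec (motive := fun _ => Bool) b a c

/-- periodic extension to `[0, 2k)²` -/
def ext (k w : ℕ) : ℕ :=
  Nat.lor (Nat.lor w (Nat.shiftLeft w k))
    (Nat.shiftLeft (Nat.lor w (Nat.shiftLeft w k)) (Nat.mul (Nat.mul 2 k) k))

/-- the differences `q - s` -/
def dif (W E s : ℕ) : ℕ := Nat.land (Nat.shiftRight E s) W

/-- the code of the negative -/
def neg (k x : ℕ) : ℕ :=
  Nat.add (Nat.mul (Nat.mod (Nat.sub k (Nat.div x (Nat.mul 2 k))) k) (Nat.mul 2 k))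
    (Nat.mod (Nat.sub k (Nat.mod x (Nat.mul 2 k))) k)

/-- the union of the translates of the set with extension `E` by the negatives of the list -/
noncomputable def forb (W E : ℕ) (L : List ℕ) : ℕ :=
  List.rec (motive := fun _ => ℕ) 0 (fun s _ ih => Nat.lor (dif W E s) ih) L

/-- the type of the search function -/
abbrev Fn : Type := List ℕ → ℕ → ℕ → ℕ → ℕ → ℕ → Bool

/-- last step -/
noncomputable def k4 (W P Cm Nm : ℕ) (NL' : List ℕ) (ih : Fn) (need' cand' x nx E' F : ℕ) : Bool :=
  ih NL' (Nat.lor Cm (Nat.shiftLeft P x)) (Nat.lor Nm (Nat.shiftLeft P nx)) E'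
    (Nat.xor (Nat.lor cand' F) F) need'

/-- third step -/
noncomputable def k3 (W P Cm Nm : ℕ) (NL' : List ℕ) (ih : Fn) (need' cand' x nx E' : ℕ) : Bool :=
  force (forb W E' NL') (k4 W P Cm Nm NL' ih need' cand' x nx E')

/-- second step -/
noncomputable def k2 (k W P Cm Nm E : ℕ) (NL' : List ℕ) (ih : Fn) (need' cand' x nx N2 N1 : ℕ) :
    Bool :=
  ite' (Nat.beq (Nat.land N1 N2) 0)
    (force (Nat.lor E (ext k (Nat.lor N1 N2))) (k3 W P Cm Nm NL' ih need' cand' x nx)) false

/-- first step, continued -/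
noncomputable def k1' (k W P Cm Nm E : ℕ) (NL' : List ℕ) (ih : Fn) (need' cand' x nx N2 : ℕ) :
    Bool :=
  force (Nat.land (Nat.shiftRight Nm nx) W) (k2 k W P Cm Nm E NL' ih need' cand' x nx N2)

/-- first step -/
noncomputable def k1 (k W P Cm Nm E : ℕ) (NL : List ℕ) (ih : Fn) (need' cand' x nx : ℕ) :
    Bool :=
  force (Nat.land (Nat.shiftRight Cm x) W) (k1' k W P Cm Nm E (nx :: NL) ih need' cand' x nx)

/-- treatment of the candidate `x` -/
noncomputable def k0 (k W P Cm Nm E : ℕ) (NL : List ℕ) (ih : Fn) (need' x cand' : ℕ) : Bool :=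
  ite' (force (neg k x) (k1 k W P Cm Nm E NL ih need' cand' x)) true
    (ih NL Cm Nm E cand' (Nat.succ need'))

/-- the candidate `x` -/
noncomputable def kx (k W P Cm Nm E : ℕ) (NL : List ℕ) (ih : Fn) (need' c' x : ℕ) : Bool :=
  force (Nat.xor (Nat.succ c') (Nat.shiftLeft 1 x)) (k0 k W P Cm Nm E NL ih need' x)

/-- one step -/
noncomputable def stp (k W P : ℕ) (ih : Fn) (NL : List ℕ) (Cm Nm E cand need : ℕ) : Bool :=
  Nat.rec (motive := fun _ => Bool) true
    (fun need' _ =>
      Nat.rec (motive := fun _ => Bool) false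
        (fun c' _ => force (Nat.log2 (Nat.succ c')) (kx k W P Cm Nm E NL ih need' c'))
        cand)
    need

/-- The search. `NL`: codes of the negatives of the chosen elements, `Cm`, `Nm`: extended masks of
the chosen elements and their negatives, `E`: extended mask of their differences, `cand`:
candidates, `need`: number of elements to be added. -/
noncomputable def search (k W P : ℕ) (fuel : ℕ) : List ℕ → ℕ → ℕ → ℕ → ℕ → ℕ → Bool :=
  Nat.rec (motive := fun _ => Fn) (fun _ _ _ _ _ _ => true) (fun _ ih => stp k W P ih) fuel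

end Pool.Agent.TH384.SD
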