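import Mathlib

/-!
# A Sidon set of size `2 ^ r` in `(ZMod 4) ^ r`
-/

set_option autoImplicit false
set_option linter.unusedSectionVars false

namespace Pool.Agent.TH384.SD

/-- the sums of two elements are pairwise distinct up to the order of the terms -/
def IsSidon {G : Type*} [AddCommGroup G] (A : Finset G) : Prop :=
  ∀ a ∈ A, ∀ b ∈ A, ∀ c ∈ A, ∀ d ∈ A, a + b = c + d → (a = c ∧ b = d) ∨ (a = d ∧ b = c)

/-- the Witt vectors of length two over `F` -/
@[ext] structure TW (F : Type*) where
  x : F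
  y : F

variable {F : Type*} [Field F] [CharP F 2]

instance : Add (TW F) := ⟨fun a b => ⟨a.x + b.x, a.y + b.y + a.x * b.x⟩⟩
instance : Zero (TW F) := ⟨⟨0, 0⟩⟩
instance : Neg (TW F) := ⟨fun a => ⟨a.x, a.y + a.x * a.x⟩⟩

@[simp] lemma add_x (a b : TW F) : (a + b).x = a.x + b.x := rfl
@[simp] lemma add_y (a b : TW F) : (a + b).y = a.y + b.y + a.x * b.x := rfl
@[simp] lemma zero_x : (0 : TW F).x = 0 := rfl
@[simp] lemma zero_y : (0 : TW F).y = 0 := rfl
@[simp] lemma neg_x (a : TW F) : (-a).x = a.x := rfl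
@[simp] lemma neg_y (a : TW F) : (-a).y = a.y + a.x * a.x := rfl

lemma dbl (a : F) : a + a = 0 := CharTwo.add_self_eq_zero a

instance : AddCommGroup (TW F) where
  add_assoc a b c := by ext <;> simp <;> ring
  zero_add a := by ext <;> simp
  add_zero a := by ext <;> simp
  neg_add_cancel a := by
    ext
    · simp [dbl]
    · simp only [add_y, neg_y, neg_x, zero_y]
      have h := dbl (a.y + a.x * a.x)
      linear_combination h
  add_comm a b := by ext <;> simp <;> ring
  nsmul := nsmulRec
  zsmul := zsmulRec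

lemma two_smul_tw (a : TW F) : 2 • a = ⟨0, a.x * a.x⟩ := by
  rw [two_nsmul]
  ext
  · simp [dbl]
  · simp [dbl]

lemma four_smul_tw (a : TW F) : 4 • a = 0 := by
  have : (4 : ℕ) • a = 2 • (2 • a) := by rw [← mul_nsmul]
  rw [this, two_smul_tw, two_smul_tw]
  ext <;> simp

/-- the first component -/
def px : TW F →+ F where
  toFun := TW.x
  map_zero' := rfl
  map_add' _ _ := rfl

/-- the elements `(0, y)` -/
def iy : F →+ TW F where
  toFun y := ⟨0, y⟩
  map_zero' := rfl
  map_add' a b := by ext <;> simp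

lemma sidon_x {a b c d : TW F} (ha : a.y = 0) (hb : b.y = 0) (hc : c.y = 0) (hd : d.y = 0)
    (h : a + b = c + d) : (a = c ∧ b = d) ∨ (a = d ∧ b = c) := by
  have h1 : a.x + b.x = c.x + d.x := congrArg TW.x h
  have h2 : a.x * b.x = c.x * d.x := by
    have := congrArg TW.y h
    simpa [ha, hb, hc, hd] using this
  have h3 : (a.x - c.x) * (a.x - d.x) = 0 := by
    linear_combination a.x * h1 - h2
  rcases mul_eq_zero.1 h3 with h4 | h4
  · left
    have e1 : a.x = c.x := sub_eq_zero.1 h4
    refine ⟨TW.ext e1 (by rw [ha, hc]), TW.ext ?_ (by rw [hb, hd])⟩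
    rw [e1] at h1
    exact add_left_cancel h1
  · right
    have e1 : a.x = d.x := sub_eq_zero.1 h4
    refine ⟨TW.ext e1 (by rw [ha, hd]), TW.ext ?_ (by rw [hb, hc])⟩
    rw [e1, add_comm] at h1
    exact add_right_cancel h1

/-- the equivalence with pairs -/
def twEquiv : TW F ≃ F × F where
  toFun a := (a.x, a.y)
  invFun p := ⟨p.1, p.2⟩
  left_inv _ := rfl
  right_inv _ := rfl

theorem four (r : ℕ) : ∃ A : Finset (Fin r → ZMod 4), IsSidon A ∧ A.card = 2 ^ r := by
  classical
  rcases Nat.eq_zero_or_pos r with rfl | hr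
  · refine ⟨{0}, ?_, by simp⟩
    intro a ha b hb c hc d hd _
    rw [Finset.mem_singleton] at ha hb hc hd
    subst ha hb hc hd
    exact Or.inl ⟨rfl, rfl⟩
  have hr0 : r ≠ 0 := hr.ne'
  let F := GaloisField 2 r
  have : Fintype F := Fintype.ofFinite F
  have : Fact (Nat.Prime 2) := ⟨Nat.prime_two⟩
  let b : Module.Basis (Fin r) (ZMod 2) F :=
    Module.finBasisOfFinrankEq (ZMod 2) F (GaloisField.finrank 2 hr0)
  letI : Module (ZMod 4) (TW F) := AddCommGroup.zmodModule four_smul_tw
  letI : Fintype (TW F) := Fintype.ofEquiv (F × F) twEquiv.symm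
  let v : Fin r → TW F := fun i => ⟨b i, 0⟩
  let φ : (Fin r → ZMod 4) →ₗ[ZMod 4] TW F := Fintype.linearCombination (ZMod 4) v
  have hφ : ∀ n, φ n = ∑ i, (n i).val • v i := by
    intro n
    show Fintype.linearCombination (ZMod 4) v n = _
    rw [Fintype.linearCombination_apply]
    refine Finset.sum_congr rfl fun i _ => ?_
    rw [← Nat.cast_smul_eq_nsmul (ZMod 4), ZMod.natCast_zmod_val]
  have hind : ∀ m : Fin r → ℕ, ∑ i, m i • b i = 0 → ∀ i, 2 ∣ m i := by
    intro m hm i
    have h1 : ∑ i, ((m i : ℕ) : ZMod 2) • b i = 0 := by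
      rw [← hm]
      exact Finset.sum_congr rfl fun i _ => Nat.cast_smul_eq_nsmul (ZMod 2) _ _
    have h2 := Fintype.linearIndependent_iff.1 b.linearIndependent _ h1 i
    exact (ZMod.natCast_eq_zero_iff _ _).1 h2
  have hinj : Function.Injective φ := by
    rw [← LinearMap.ker_eq_bot, LinearMap.ker_eq_bot']
    intro n hn
    rw [hφ] at hn
    have h1 : ∑ i, (n i).val • b i = 0 := by
      have := congrArg px hn
      rw [map_sum, map_zero] at this
      rw [← this]
      refine Finset.sum_congr rfl fun i _ => ?_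
      rw [map_nsmul]
      rfl
    have h2 := hind _ h1
    choose m hm using h2
    have h3 : ∑ i, m i • b i = 0 := by
      have e1 : iy (∑ i, m i • (b i * b i)) = 0 := by
        rw [map_sum, ← hn]
        refine Finset.sum_congr rfl fun i _ => ?_
        rw [hm i, mul_nsmul, two_smul_tw, map_nsmul]
        rfl
      have e2 : ∑ i, m i • (b i * b i) = 0 := congrArg TW.y e1
      have e3 : frobenius F 2 (∑ i, m i • b i) = 0 := by
        rw [map_sum, ← e2]
        refine Finset.sum_congr rfl fun i _ => ?_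
        rw [map_nsmul, frobenius_def, pow_two]
      rw [frobenius_def] at e3
      exact pow_eq_zero_iff (two_ne_zero) |>.1 e3
    have h4 := hind _ h3
    funext i
    obtain ⟨l, hl⟩ := h4 i
    have h5 : (n i).val < 4 := ZMod.val_lt _
    have h6 : (n i).val = 0 := by
      rw [hm i, hl] at h5 ⊢
      omega
    exact (ZMod.val_eq_zero _).1 h6
  have hcardF : Fintype.card F = 2 ^ r := by
    rw [← Nat.card_eq_fintype_card]
    exact GaloisField.card 2 r hr0
  have hbij : Function.Bijective φ := by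
    rw [Fintype.bijective_iff_injective_and_card]
    refine ⟨hinj, ?_⟩
    rw [Fintype.card_congr (twEquiv : TW F ≃ F × F), Fintype.card_prod, hcardF]
    simp only [Fintype.card_pi, ZMod.card, Finset.prod_const, Finset.card_univ, Fintype.card_fin]
    rw [← mul_pow]
    norm_num
  let e := Equiv.ofBijective φ hbij
  refine ⟨Finset.univ.image (fun x : F => e.symm ⟨x, 0⟩), ?_, ?_⟩
  · have hy : ∀ a ∈ Finset.univ.image (fun x : F => e.symm ⟨x, 0⟩), (φ a).y = 0 := by
      intro a ha
      obtain ⟨x, -, rfl⟩ := Finset.mem_image.1 ha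
      have : φ (e.symm ⟨x, 0⟩) = ⟨x, 0⟩ := e.apply_symm_apply _
      rw [this]
    intro a ha b hb c hc d hd h
    have h1 : φ a + φ b = φ c + φ d := by rw [← map_add, ← map_add, h]
    rcases sidon_x (hy a ha) (hy b hb) (hy c hc) (hy d hd) h1 with ⟨h2, h3⟩ | ⟨h2, h3⟩
    · exact Or.inl ⟨hinj h2, hinj h3⟩
    · exact Or.inr ⟨hinj h2, hinj h3⟩
  · rw [Finset.card_image_of_injective, Finset.card_univ, hcardF]
    intro x y hxy
    have := e.symm.injective hxy
    exact congrArg TW.x this

end Pool.Agent.TH384.SD
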