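import Mathlib
import Pool.Agent.TH384.SD.Alg
import Pool.Agent.TH384.SD.Four

/-!
# Correctness of the search
-/

set_option autoImplicit false

namespace Pool.Agent.TH384.SD

lemma force_eq (n : ℕ) (f : ℕ → Bool) : force n f = f n := by cases n <;> rfl

lemma ite'_eq (c a b : Bool) : ite' c a b = if c = true then a else b := by cases c <;> rfl

/-- the element with the code `p` -/
def el (k p : ℕ) : ZMod k × ZMod k := (((p / (2 * k) : ℕ) : ZMod k), ((p % (2 * k) : ℕ) : ZMod k))

/-- the code of an element -/
def cd (k : ℕ) (y : ZMod k × ZMod k) : ℕ := y.1.val * (2 * k) + y.2.val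

lemma el_add {k p q : ℕ} (h : p % (2 * k) + q % (2 * k) < 2 * k) :
    el k (p + q) = el k p + el k q := by
  have h1 : (p + q) / (2 * k) = p / (2 * k) + q / (2 * k) := by
    rw [Nat.add_div (by omega), if_neg (by omega), add_zero]
  have h2 : (p + q) % (2 * k) = p % (2 * k) + q % (2 * k) := by
    rw [Nat.add_mod, Nat.mod_eq_of_lt h]
  unfold el
  rw [h1, h2]
  push_cast
  rfl

lemma el_cd {k : ℕ} [NeZero k] (y : ZMod k × ZMod k) : el k (cd k y) = y := by
  have h1 : y.1.val < k := ZMod.val_lt _
  have h2 : y.2.val < k := ZMod.val_lt _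
  have hk : 0 < 2 * k := by omega
  unfold el cd
  have e1 : (y.1.val * (2 * k) + y.2.val) / (2 * k) = y.1.val := by
    rw [mul_comm, Nat.mul_add_div hk, Nat.div_eq_of_lt (by omega), add_zero]
  have e2 : (y.1.val * (2 * k) + y.2.val) % (2 * k) = y.2.val := by
    rw [Nat.mul_add_mod_self_right, Nat.mod_eq_of_lt (by omega)]
  rw [e1, e2, ZMod.natCast_zmod_val, ZMod.natCast_zmod_val]

lemma neg_lt {k x : ℕ} (hk : 0 < k) : neg k x % (2 * k) < k := by
  have h : (k - x % (2 * k)) % k < k := Nat.mod_lt _ hk
  show (((k - x / (2 * k)) % k) * (2 * k) + (k - x % (2 * k)) % k) % (2 * k) < k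
  rw [Nat.mul_add_mod_self_right, Nat.mod_eq_of_lt (by omega)]
  exact h

lemma el_neg {k x : ℕ} (hk : 0 < k) (h1 : x / (2 * k) < k) (h2 : x % (2 * k) < k) :
    el k (neg k x) = - el k x := by
  have e1 : neg k x / (2 * k) = (k - x / (2 * k)) % k := by
    show (((k - x / (2 * k)) % k) * (2 * k) + (k - x % (2 * k)) % k) / (2 * k) = _
    have h : (k - x % (2 * k)) % k < k := Nat.mod_lt _ hk
    rw [mul_comm, Nat.mul_add_div (by omega), Nat.div_eq_of_lt (a := (k - x % (2 * k)) % k) (by omega),
      add_zero]
  have e2 : neg k x % (2 * k) = (k - x % (2 * k)) % k := by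
    show (((k - x / (2 * k)) % k) * (2 * k) + (k - x % (2 * k)) % k) % (2 * k) = _
    have h : (k - x % (2 * k)) % k < k := Nat.mod_lt _ hk
    rw [Nat.mul_add_mod_self_right, Nat.mod_eq_of_lt (by omega)]
  have key : ∀ a : ℕ, a < k → (((k - a) % k : ℕ) : ZMod k) = -((a : ℕ) : ZMod k) := by
    intro a ha
    rw [ZMod.natCast_mod, Nat.cast_sub ha.le]
    simp
  unfold el
  rw [e1, e2, key _ h1, key _ h2]
  rfl

/-- the bits of the extended mask -/
lemma ext_bit {k w q : ℕ} (hw : ∀ p, w.testBit p = true → p % (2 * k) < k)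
    (h : (ext k w).testBit q = true) : ∃ p, w.testBit p = true ∧ el k q = el k p := by
  have e : ext k w = (w ||| (w <<< k)) ||| ((w ||| (w <<< k)) <<< (2 * k * k)) := rfl
  have shift : ∀ p, w.testBit p = true → el k (p + k) = el k p := by
    intro p hp
    have h1 := hw p hp
    have hk : k % (2 * k) = k := Nat.mod_eq_of_lt (by omega)
    rw [el_add (by rw [hk]; omega)]
    have : el k k = 0 := by
      unfold el
      rw [hk, Nat.div_eq_of_lt (by omega)]
      simp
    rw [this, add_zero]
  have shift2 : ∀ p, el k (p + 2 * k * k) = el k p := by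
    intro p
    unfold el
    rcases Nat.eq_zero_or_pos k with rfl | hk
    · simp
    · rw [Nat.add_mul_mod_self_left, Nat.add_mul_div_left _ _ (by omega)]
      simp
  rw [e] at h
  simp only [Nat.testBit_or, Nat.testBit_shiftLeft, Bool.or_eq_true, Bool.and_eq_true,
    decide_eq_true_eq] at h
  rcases h with (h | ⟨h1, h2⟩) | ⟨h1, h2 | ⟨h3, h4⟩⟩
  · exact ⟨q, h, rfl⟩
  · refine ⟨q - k, h2, ?_⟩
    have := shift _ h2
    rwa [Nat.sub_add_cancel h1] at this
  · refine ⟨q - 2 * k * k, h2, ?_⟩
    have := shift2 (q - 2 * k * k)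
    rwa [Nat.sub_add_cancel h1] at this
  · refine ⟨q - 2 * k * k - k, h4, ?_⟩
    have e1 := shift _ h4
    have e2 := shift2 (q - 2 * k * k)
    rw [Nat.sub_add_cancel h3] at e1
    rw [Nat.sub_add_cancel h1] at e2
    rw [e2, e1]

lemma forb_bit {W E p : ℕ} : ∀ {L : List ℕ}, (forb W E L).testBit p = true →
    ∃ s ∈ L, E.testBit (s + p) = true ∧ W.testBit p = true
  | [], h => by
    have : forb W E [] = 0 := rfl
    rw [this] at h
    simp at h
  | s :: L, h => by
    have e : forb W E (s :: L) = ((E >>> s) &&& W) ||| forb W E L := rfl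
    rw [e] at h
    simp only [Nat.testBit_or, Nat.testBit_and, Nat.testBit_shiftRight, Bool.or_eq_true,
      Bool.and_eq_true] at h
    rcases h with ⟨h1, h2⟩ | h
    · exact ⟨s, List.mem_cons_self, h1, h2⟩
    · obtain ⟨t, ht, h1⟩ := forb_bit h
      exact ⟨t, List.mem_cons_of_mem _ ht, h1⟩

lemma bit_one {z p : ℕ} : (1 <<< z).testBit p = decide (p = z) := by
  rw [Nat.one_shiftLeft, Nat.testBit_two_pow]
  exact decide_eq_decide.2 eq_comm

lemma search_step (k W P fuel : ℕ) (NL : List ℕ) (Cm Nm E c' need' x : ℕ)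
    (hx : x = Nat.log2 (c' + 1)) :
    search k W P (fuel + 1) NL Cm Nm E (c' + 1) (need' + 1) =
      ((if ((Nm >>> neg k x) &&& W) &&& ((Cm >>> x) &&& W) = 0 then
        search k W P fuel (neg k x :: NL) (Cm ||| (P <<< x)) (Nm ||| (P <<< neg k x))
          (E ||| ext k (((Nm >>> neg k x) &&& W) ||| ((Cm >>> x) &&& W)))
          ((((c' + 1) ^^^ (1 <<< x)) |||
            forb W (E ||| ext k (((Nm >>> neg k x) &&& W) ||| ((Cm >>> x) &&& W))) (neg k x :: NL)) ^^^
            forb W (E ||| ext k (((Nm >>> neg k x) &&& W) ||| ((Cm >>> x) &&& W))) (neg k x :: NL))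
          need' else false) ||
        search k W P fuel NL Cm Nm E ((c' + 1) ^^^ (1 <<< x)) (need' + 1)) := by
  subst hx
  have h0 : search k W P (fuel + 1) NL Cm Nm E (c' + 1) (need' + 1) =
      force (Nat.log2 (Nat.succ c')) fun x =>
      force (Nat.xor (Nat.succ c') (Nat.shiftLeft 1 x)) fun cand' =>
      ite' (force (neg k x) fun nx =>
        force (Nat.land (Nat.shiftRight Cm x) W) fun N2 =>
        force (Nat.land (Nat.shiftRight Nm nx) W) fun N1 =>
        ite' (Nat.beq (Nat.land N1 N2) 0)
          (force (Nat.lor E (ext k (Nat.lor N1 N2))) fun E' =>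
           force (forb W E' (nx :: NL)) fun F =>
           search k W P fuel (nx :: NL) (Nat.lor Cm (Nat.shiftLeft P x))
            (Nat.lor Nm (Nat.shiftLeft P nx)) E' (Nat.xor (Nat.lor cand' F) F) need')
          false)
        true
        (search k W P fuel NL Cm Nm E cand' (Nat.succ need')) := rfl
  rw [h0]
  simp only [force_eq, ite'_eq]
  have h1 : ∀ a : ℕ, (Nat.beq a 0 = true) = (a = 0) := fun a => Nat.beq_eq
  have h2 : ∀ u v : Bool, (if u = true then true else v) = (u || v) := by decide
  simp only [h1]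
  rw [h2]
  rfl

/-- the hypotheses on the masks `W` and `P` -/
structure Good (k W P : ℕ) : Prop where
  w1 : ∀ p, W.testBit p = true → p / (2 * k) < k ∧ p % (2 * k) < k
  w2 : ∀ y : ZMod k × ZMod k, W.testBit (cd k y) = true
  p1 : P = ext k 1

/-- The invariant. -/
structure Inv (k W : ℕ) (A C0 : Finset (ZMod k × ZMod k)) (NL : List ℕ)
    (Cm Nm E cand need : ℕ) : Prop where
  sub : C0 ⊆ A
  card : C0.card + need = A.card
  nl : ∀ s ∈ NL, s % (2 * k) < k ∧ -(el k s) ∈ C0
  cm : ∀ q, Cm.testBit q = true → el k q ∈ C0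
  nm : ∀ q, Nm.testBit q = true → -(el k q) ∈ C0
  e : ∀ q, E.testBit q = true → ∃ a ∈ C0, ∃ b ∈ C0, el k q = a - b
  c1 : ∀ p, cand.testBit p = true → W.testBit p = true
  c2 : ∀ y ∈ A, y ∉ C0 → cand.testBit (cd k y) = true

theorem sound {k W P : ℕ} [NeZero k] (hG : Good k W P) {A : Finset (ZMod k × ZMod k)}
    (hA : IsSidon A) : ∀ (fuel : ℕ) (NL : List ℕ) (Cm Nm E cand need : ℕ)
    (C0 : Finset (ZMod k × ZMod k)), Inv k W A C0 NL Cm Nm E cand need →
    search k W P fuel NL Cm Nm E cand need = true
  | 0, _, _, _, _, _, _, _, _ => rfl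
  | fuel + 1, NL, Cm, Nm, E, cand, 0, C0, _ => rfl
  | fuel + 1, NL, Cm, Nm, E, 0, need' + 1, C0, h => by
    exfalso
    have h1 : A ⊆ C0 := by
      intro y hy
      by_contra hc
      have := h.c2 y hy hc
      simp at this
    have h2 := Finset.card_le_card h1
    have h3 := h.card
    omega
  | fuel + 1, NL, Cm, Nm, E, c' + 1, need' + 1, C0, h => by
    classical
    have hk : 0 < k := Nat.pos_of_ne_zero (NeZero.ne k)
    obtain ⟨x, hx⟩ : ∃ x, x = Nat.log2 (c' + 1) := ⟨_, rfl⟩
    rw [search_step k W P fuel NL Cm Nm E c' need' x hx]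
    have hxb : (c' + 1).testBit x = true := by
      rw [hx]
      exact Nat.testBit_log2 (by omega)
    have hxW := h.c1 x hxb
    obtain ⟨hx1, hx2⟩ := hG.w1 x hxW
    set cand' := (c' + 1) ^^^ (1 <<< x) with hcand'
    have hbit1 : ∀ p, (1 <<< x).testBit p = decide (p = x) := fun p => bit_one
    have hcand'1 : ∀ p, cand'.testBit p = true → (c' + 1).testBit p = true := by
      intro p hp
      rw [hcand', Nat.testBit_xor, hbit1] at hp
      by_cases hpx : p = x
      · subst hpx
        exact hxb
      · simpa [hpx] using hp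
    have hcand'2 : ∀ p, p ≠ x → (c' + 1).testBit p = true → cand'.testBit p = true := by
      intro p hpx hp
      rw [hcand', Nat.testBit_xor, hbit1]
      simpa [hpx] using hp
    rw [Bool.or_eq_true]
    by_cases hy : el k x ∈ A ∧ el k x ∉ C0
    · left
      obtain ⟨hyA, hyC⟩ := hy
      set N1 := (Nm >>> neg k x) &&& W with hN1
      set N2 := (Cm >>> x) &&& W with hN2
      have hn2 := neg_lt (k := k) (x := x) hk
      have hneg := el_neg hk hx1 hx2
      have hN1b : ∀ p, N1.testBit p = true → p % (2 * k) < k ∧ ∃ c ∈ C0, el k p = el k x - c := by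
        intro p hp
        rw [hN1, Nat.testBit_and, Nat.testBit_shiftRight, Bool.and_eq_true] at hp
        obtain ⟨-, hp2⟩ := hG.w1 p hp.2
        refine ⟨hp2, _, h.nm _ hp.1, ?_⟩
        rw [el_add (by omega), hneg]
        abel
      have hN2b : ∀ p, N2.testBit p = true → p % (2 * k) < k ∧ ∃ c ∈ C0, el k p = c - el k x := by
        intro p hp
        rw [hN2, Nat.testBit_and, Nat.testBit_shiftRight, Bool.and_eq_true] at hp
        obtain ⟨-, hp2⟩ := hG.w1 p hp.2
        refine ⟨hp2, _, h.cm _ hp.1, ?_⟩
        rw [el_add (by omega)]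
        abel
      have hzero : N1 &&& N2 = 0 := by
        apply Nat.eq_of_testBit_eq
        intro p
        rw [Nat.zero_testBit]
        by_contra hc
        rw [Bool.not_eq_false, Nat.testBit_and, Bool.and_eq_true] at hc
        obtain ⟨-, c, hc1, e1⟩ := hN1b p hc.1
        obtain ⟨-, d, hd1, e2⟩ := hN2b p hc.2
        have e3 : el k x + el k x = c + d := by
          have : el k x - c = d - el k x := by rw [← e1, ← e2]
          rw [sub_eq_sub_iff_add_eq_add] at this
          rw [this, add_comm]
        rcases hA _ hyA _ hyA c (h.sub hc1) d (h.sub hd1) e3 with ⟨e4, -⟩ | ⟨e4, -⟩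
        · exact hyC (e4 ▸ hc1)
        · exact hyC (e4 ▸ hd1)
      rw [if_pos hzero]
      set E' := E ||| ext k (N1 ||| N2) with hE'
      set F := forb W E' (neg k x :: NL) with hF
      have hE'b : ∀ q, E'.testBit q = true →
          ∃ a ∈ insert (el k x) C0, ∃ b ∈ insert (el k x) C0, el k q = a - b := by
        intro q hq
        rw [hE', Nat.testBit_or, Bool.or_eq_true] at hq
        rcases hq with hq | hq
        · obtain ⟨a, ha, b, hb, e⟩ := h.e q hq
          exact ⟨a, Finset.mem_insert_of_mem ha, b, Finset.mem_insert_of_mem hb, e⟩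
        · obtain ⟨p, hp, e⟩ := ext_bit (k := k) (w := N1 ||| N2) (by
            intro p hp
            rw [Nat.testBit_or, Bool.or_eq_true] at hp
            rcases hp with hp | hp
            · exact (hN1b p hp).1
            · exact (hN2b p hp).1) hq
          rw [Nat.testBit_or, Bool.or_eq_true] at hp
          rcases hp with hp | hp
          · obtain ⟨-, c, hc, e1⟩ := hN1b p hp
            exact ⟨_, Finset.mem_insert_self _ _, c, Finset.mem_insert_of_mem hc, e.trans e1⟩
          · obtain ⟨-, c, hc, e1⟩ := hN2b p hp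
            exact ⟨c, Finset.mem_insert_of_mem hc, _, Finset.mem_insert_self _ _, e.trans e1⟩
      have hNL : ∀ s ∈ neg k x :: NL, s % (2 * k) < k ∧ -(el k s) ∈ insert (el k x) C0 := by
        intro s hs
        rcases List.mem_cons.1 hs with rfl | hs
        · refine ⟨hn2, ?_⟩
          rw [hneg, neg_neg]
          exact Finset.mem_insert_self _ _
        · exact ⟨(h.nl s hs).1, Finset.mem_insert_of_mem (h.nl s hs).2⟩
      have hPb : ∀ (z : ℕ), z % (2 * k) < k → ∀ q, (P <<< z).testBit q = true → el k q = el k z := by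
        intro z hz q hq
        rw [Nat.testBit_shiftLeft, Bool.and_eq_true, decide_eq_true_eq, hG.p1] at hq
        obtain ⟨hq1, hq2⟩ := hq
        have hPz : (ext k 1) <<< z = ext k (1 <<< z) := by
          show ((1 ||| (1 <<< k)) ||| ((1 ||| (1 <<< k)) <<< (2 * k * k))) <<< z =
            ((1 <<< z) ||| ((1 <<< z) <<< k)) ||| (((1 <<< z) ||| ((1 <<< z) <<< k)) <<< (2 * k * k))
          simp only [Nat.shiftLeft_or_distrib, ← Nat.shiftLeft_add]
          have e1 : k + z = z + k := Nat.add_comm _ _
          have e2 : 2 * k * k + z = z + 2 * k * k := Nat.add_comm _ _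
          have e3 : k + 2 * k * k + z = z + k + 2 * k * k := by ring
          rw [e1, e2, e3]
        have h3 : (ext k (1 <<< z)).testBit q = true := by
          rw [← hPz, Nat.testBit_shiftLeft, Bool.and_eq_true, decide_eq_true_eq]
          exact ⟨hq1, hq2⟩
        obtain ⟨p, hp, e⟩ := ext_bit (k := k) (w := 1 <<< z) (by
          intro p hp
          rw [bit_one, decide_eq_true_eq] at hp
          rw [hp]
          exact hz) h3
        rw [bit_one, decide_eq_true_eq] at hp
        rw [e, hp]
      refine sound hG hA fuel _ _ _ _ _ _ (insert (el k x) C0) ⟨?_, ?_, hNL, ?_, ?_, hE'b, ?_, ?_⟩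
      · exact Finset.insert_subset hyA h.sub
      · rw [Finset.card_insert_of_notMem hyC]
        have := h.card
        omega
      · intro q hq
        rw [Nat.testBit_or, Bool.or_eq_true] at hq
        rcases hq with hq | hq
        · exact Finset.mem_insert_of_mem (h.cm q hq)
        · rw [hPb x hx2 q hq]
          exact Finset.mem_insert_self _ _
      · intro q hq
        rw [Nat.testBit_or, Bool.or_eq_true] at hq
        rcases hq with hq | hq
        · exact Finset.mem_insert_of_mem (h.nm q hq)
        · rw [hPb _ hn2 q hq, hneg, neg_neg]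
          exact Finset.mem_insert_self _ _
      · intro p hp
        rw [Nat.testBit_xor, Nat.testBit_or] at hp
        by_cases hFp : F.testBit p = true
        · simp [hFp] at hp
        · rw [Bool.not_eq_true] at hFp
          rw [hFp] at hp
          exact h.c1 p (hcand'1 p (by simpa using hp))
      · intro y hy hyC'
        have hne : y ≠ el k x := fun e => hyC' (by rw [e]; exact Finset.mem_insert_self _ _)
        have hyC0 : y ∉ C0 := fun e => hyC' (Finset.mem_insert_of_mem e)
        have h1 : cand'.testBit (cd k y) = true := by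
          refine hcand'2 _ ?_ (h.c2 y hy hyC0)
          intro e
          exact hne (by rw [← e, el_cd])
        have h2 : F.testBit (cd k y) = false := by
          by_contra hc
          rw [Bool.not_eq_false] at hc
          obtain ⟨s, hs, hs1, hs2⟩ := forb_bit hc
          obtain ⟨hs3, hs4⟩ := hNL s hs
          obtain ⟨a, ha, b, hb, e⟩ := hE'b _ hs1
          have hw := (hG.w1 _ hs2).2
          rw [el_add (by omega), el_cd] at e
          have e1 : y + b = a + -(el k s) := by
            have : y = a - b - el k s := by rw [← e]; abel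
            rw [this]
            abel
          have hins : insert (el k x) C0 ⊆ A := Finset.insert_subset hyA h.sub
          rcases hA y hy b (hins hb) a (hins ha) _ (hins hs4) e1 with ⟨e2, -⟩ | ⟨e2, -⟩
          · exact hyC' (e2 ▸ ha)
          · exact hyC' (e2 ▸ hs4)
        rw [Nat.testBit_xor, Nat.testBit_or, h1, h2]
        rfl
    · right
      refine sound hG hA fuel _ _ _ _ _ _ C0 ⟨h.sub, h.card, h.nl, h.cm, h.nm, h.e, ?_, ?_⟩
      · intro p hp
        exact h.c1 p (hcand'1 p hp)
      · intro y hyA hyC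
        refine hcand'2 _ ?_ (h.c2 y hyA hyC)
        intro e
        apply hy
        rw [← e, el_cd]
        exact ⟨hyA, hyC⟩

end Pool.Agent.TH384.SD
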