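import Mathlib
import Pool.Agent.TH384.SD.Sound
import Pool.Agent.TH384.SD.C8
import Pool.Agent.TH384.SD.C9

/-!
# There is no Sidon set of size `k` in `ZMod k × ZMod k` for `k = 8, 9`
-/

set_option autoImplicit false

namespace Pool.Agent.TH384.SD

open Finset

lemma IsSidon.image {G H : Type*} [AddCommGroup G] [AddCommGroup H] [DecidableEq H]
    {A : Finset G} (hA : IsSidon A) (f : G →+ H) (hf : Function.Injective f) :
    IsSidon (A.image f) := by
  intro a ha b hb c hc d hd h
  obtain ⟨a, ha', rfl⟩ := mem_image.1 ha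
  obtain ⟨b, hb', rfl⟩ := mem_image.1 hb
  obtain ⟨c, hc', rfl⟩ := mem_image.1 hc
  obtain ⟨d, hd', rfl⟩ := mem_image.1 hd
  rw [← map_add, ← map_add] at h
  rcases hA a ha' b hb' c hc' d hd' (hf h) with ⟨h1, h2⟩ | ⟨h1, h2⟩
  · exact Or.inl ⟨by rw [h1], by rw [h2]⟩
  · exact Or.inr ⟨by rw [h1], by rw [h2]⟩

lemma IsSidon.translate {G : Type*} [AddCommGroup G] [DecidableEq G]
    {A : Finset G} (hA : IsSidon A) (t : G) : IsSidon (A.image (fun a => a - t)) := by
  intro a ha b hb c hc d hd h
  obtain ⟨a, ha', rfl⟩ := mem_image.1 ha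
  obtain ⟨b, hb', rfl⟩ := mem_image.1 hb
  obtain ⟨c, hc', rfl⟩ := mem_image.1 hc
  obtain ⟨d, hd', rfl⟩ := mem_image.1 hd
  have h' : a + b = c + d := by
    have e1 : a + b = (a - t + (b - t)) + (t + t) := by abel
    have e2 : c + d = (c - t + (d - t)) + (t + t) := by abel
    rw [e1, e2]
    exact congrArg (· + (t + t)) h
  rcases hA a ha' b hb' c hc' d hd' h' with ⟨h1, h2⟩ | ⟨h1, h2⟩
  · exact Or.inl ⟨by rw [h1], by rw [h2]⟩
  · exact Or.inr ⟨by rw [h1], by rw [h2]⟩

lemma count {G : Type*} [AddCommGroup G] [DecidableEq G] {A H : Finset G} (hA : IsSidon A)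
    (h : ∀ a ∈ A, ∀ b ∈ A, a - b ∈ H) : A.card * A.card - A.card ≤ H.card := by
  rw [← offDiag_card]
  refine card_le_card_of_injOn (fun p => p.1 - p.2) ?_ ?_
  · intro p hp
    have hp' := mem_offDiag.1 (mem_coe.1 hp)
    exact mem_coe.2 (h _ hp'.1 _ hp'.2.1)
  · intro p hp q hq hpq
    have hp' := mem_offDiag.1 (mem_coe.1 hp)
    have hq' := mem_offDiag.1 (mem_coe.1 hq)
    have h1 : p.1 + q.2 = q.1 + p.2 := by
      have : p.1 - p.2 = q.1 - q.2 := hpq
      rwa [sub_eq_sub_iff_add_eq_add] at this
    rcases hA _ hp'.1 _ hq'.2.1 _ hq'.1 _ hp'.2.1 h1 with ⟨h2, h3⟩ | ⟨h2, h3⟩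
    · exact Prod.ext h2 h3.symm
    · exact absurd h2 hp'.2.2

lemma bit_lt {n q N : ℕ} (hn : n < 2 ^ N) (h : n.testBit q = true) : q < N := by
  by_contra hc
  push Not at hc
  have h1 : n < 2 ^ q := lt_of_lt_of_le hn (Nat.pow_le_pow_right (by norm_num) hc)
  rw [Nat.testBit_lt_two_pow h1] at h
  exact Bool.false_ne_true h

theorem normal {k : ℕ} [NeZero k] (m : ZMod k)
    (h1 : (univ.filter (fun g : ZMod k × ZMod k => m * g.1 = 0 ∧ m * g.2 = 0)).card < k * k - k)
    (h2 : ∀ b : ZMod k × ZMod k, ¬ (m * b.1 = 0 ∧ m * b.2 = 0) →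
      (univ.filter (fun g : ZMod k × ZMod k => m * (b.1 * g.2 - b.2 * g.1) = 0)).card < k * k - k)
    (h3 : ∀ x : ZMod k, m * x ≠ 0 → ∃ y, x * y = 1)
    (A : Finset (ZMod k × ZMod k)) (hA : IsSidon A) (hc : A.card = k) :
    ∃ B : Finset (ZMod k × ZMod k), IsSidon B ∧ B.card = k ∧ (0, 0) ∈ B ∧ (1, 0) ∈ B ∧
      (0, 1) ∈ B := by
  classical
  obtain ⟨t, ht⟩ : A.Nonempty := by
    rw [← card_pos, hc]
    exact Nat.pos_of_ne_zero (NeZero.ne k)
  set A' := A.image (fun a => a - t) with hA'
  have hS := hA.translate t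
  rw [← hA'] at hS
  have hc' : A'.card = k := by
    rw [hA', card_image_of_injective _ (sub_left_injective), hc]
  have h0 : (0 : ZMod k × ZMod k) ∈ A' := mem_image.2 ⟨t, ht, sub_self t⟩
  obtain ⟨b, hb, hbm⟩ : ∃ b ∈ A', ¬ (m * b.1 = 0 ∧ m * b.2 = 0) := by
    by_contra hcon
    push Not at hcon
    have := count (H := univ.filter (fun g : ZMod k × ZMod k => m * g.1 = 0 ∧ m * g.2 = 0)) hS (by
      intro a ha b hb
      rw [mem_filter]
      obtain ⟨a1, a2⟩ := hcon a ha
      obtain ⟨b1, b2⟩ := hcon b hb
      exact ⟨mem_univ _, by rw [Prod.fst_sub, mul_sub, a1, b1, sub_zero],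
        by rw [Prod.snd_sub, mul_sub, a2, b2, sub_zero]⟩)
    rw [hc'] at this
    omega
  obtain ⟨c, hcA, hcm⟩ : ∃ c ∈ A', m * (b.1 * c.2 - b.2 * c.1) ≠ 0 := by
    by_contra hcon
    push Not at hcon
    have := count (H := univ.filter (fun g : ZMod k × ZMod k =>
        m * (b.1 * g.2 - b.2 * g.1) = 0)) hS (by
      intro a ha d hd
      rw [mem_filter]
      have a1 := hcon a ha
      have d1 := hcon d hd
      refine ⟨mem_univ _, ?_⟩
      rw [Prod.fst_sub, Prod.snd_sub]
      linear_combination a1 - d1)
    rw [hc'] at this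
    have := h2 b hbm
    omega
  obtain ⟨w, hw⟩ := h3 _ hcm
  let f : (ZMod k × ZMod k) →+ (ZMod k × ZMod k) :=
    { toFun := fun g => (w * (g.1 * c.2 - g.2 * c.1), w * (b.1 * g.2 - b.2 * g.1))
      map_zero' := by simp
      map_add' := by
        intro x y
        ext
        · simp only [Prod.fst_add, Prod.snd_add]
          ring
        · simp only [Prod.fst_add, Prod.snd_add]
          ring }
  have hf : Function.Injective f := by
    rw [injective_iff_map_eq_zero]
    intro g hg
    have g1 : w * (g.1 * c.2 - g.2 * c.1) = 0 := congrArg Prod.fst hg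
    have g2 : w * (b.1 * g.2 - b.2 * g.1) = 0 := congrArg Prod.snd hg
    ext
    · show g.1 = 0
      linear_combination b.1 * g1 + c.1 * g2 - g.1 * hw
    · show g.2 = 0
      linear_combination b.2 * g1 + c.2 * g2 - g.2 * hw
  refine ⟨A'.image f, hS.image f hf, ?_, ?_, ?_, ?_⟩
  · rw [card_image_of_injective _ hf, hc']
  · exact mem_image.2 ⟨0, h0, map_zero f⟩
  · refine mem_image.2 ⟨b, hb, ?_⟩
    show (w * (b.1 * c.2 - b.2 * c.1), w * (b.1 * b.2 - b.2 * b.1)) = (1, 0)
    refine Prod.ext ?_ ?_
    · show w * (b.1 * c.2 - b.2 * c.1) = 1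
      rw [mul_comm, hw]
    · show w * (b.1 * b.2 - b.2 * b.1) = 0
      ring
  · refine mem_image.2 ⟨c, hcA, ?_⟩
    show (w * (c.1 * c.2 - c.2 * c.1), w * (b.1 * c.2 - b.2 * c.1)) = (0, 1)
    refine Prod.ext ?_ ?_
    · show w * (c.1 * c.2 - c.2 * c.1) = 0
      ring
    · show w * (b.1 * c.2 - b.2 * c.1) = 1
      rw [mul_comm, hw]

theorem no8 (A : Finset (ZMod 8 × ZMod 8)) (hA : IsSidon A) : A.card ≠ 8 := by
  intro hc
  obtain ⟨B, hB, hcard, h0, h1, h2⟩ := normal (k := 8) 4 (by decide +kernel)
    (by decide +kernel) (by decide +kernel) A hA hc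
  have hG : Good 8 1324055902416102970674609367438786815 87452568298681185110087274109964430344449 := by
    refine ⟨?_, by decide +kernel, by decide +kernel⟩
    have key : ∀ p < 128, Nat.testBit 1324055902416102970674609367438786815 p = true →
        p / (2 * 8) < 8 ∧ p % (2 * 8) < 8 := by decide +kernel
    intro p hp
    exact key p (bit_lt (by decide +kernel) hp) hp
  have hinv : Inv 8 1324055902416102970674609367438786815 B {(0, 0), (1, 0), (0, 1)} [7, 112, 0]
      5731553873727266190930009857892958800344843011 454079695648044772702907457690941339950308311662556724196145316700327281025 1362239086944134318108722373812138150107757922934430548052100818252324766338 1287709824406359177274895339074879608 5 := by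
    refine ⟨?_, ?_, by decide +kernel, ?_, ?_, ?_, ?_, ?_⟩
    · intro y hy
      simp only [Finset.mem_insert, Finset.mem_singleton] at hy
      rcases hy with rfl | rfl | rfl
      · exact h0
      · exact h1
      · exact h2
    · rw [hcard]
      decide +kernel
    · have key : ∀ q < 272, Nat.testBit 5731553873727266190930009857892958800344843011 q = true → el 8 q ∈ ({(0, 0), (1, 0), (0, 1)} : Finset (ZMod 8 × ZMod 8)) := by decide +kernel
      intro q hq
      exact key q (bit_lt (by decide +kernel) hq) hq
    · have key : ∀ q < 272, Nat.testBit 454079695648044772702907457690941339950308311662556724196145316700327281025 q = true → -(el 8 q) ∈ ({(0, 0), (1, 0), (0, 1)} : Finset (ZMod 8 × ZMod 8)) := by decide +kernel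
      intro q hq
      exact key q (bit_lt (by decide +kernel) hq) hq
    · have key : ∀ q < 272, Nat.testBit 1362239086944134318108722373812138150107757922934430548052100818252324766338 q = true → ∃ a ∈ ({(0, 0), (1, 0), (0, 1)} : Finset (ZMod 8 × ZMod 8)),
          ∃ b ∈ ({(0, 0), (1, 0), (0, 1)} : Finset (ZMod 8 × ZMod 8)), el 8 q = a - b := by decide +kernel
      intro q hq
      exact key q (bit_lt (by decide +kernel) hq) hq
    · have key : ∀ q < 128, Nat.testBit 1287709824406359177274895339074879608 q = true → Nat.testBit 1324055902416102970674609367438786815 q = true := by decide +kernel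
      intro q hq
      exact key q (bit_lt (by decide +kernel) hq) hq
    · intro y hy hy0
      have key : ∀ y : ZMod 8 × ZMod 8, Nat.testBit 1287709824406359177274895339074879608 (cd 8 y) = true ∨
          ∃ a ∈ ({(0, 0), (1, 0), (0, 1)} : Finset (ZMod 8 × ZMod 8)),
          ∃ b ∈ ({(0, 0), (1, 0), (0, 1)} : Finset (ZMod 8 × ZMod 8)),
          ∃ c ∈ ({(0, 0), (1, 0), (0, 1)} : Finset (ZMod 8 × ZMod 8)),
            y + b = a + c := by decide +kernel
      rcases key y with h | ⟨a, ha, b, hb, c, hc', e⟩
      · exact h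
      · exfalso
        have hsub : ∀ z ∈ ({(0, 0), (1, 0), (0, 1)} : Finset (ZMod 8 × ZMod 8)), z ∈ B := by
          intro z hz
          simp only [Finset.mem_insert, Finset.mem_singleton] at hz
          rcases hz with rfl | rfl | rfl
          · exact h0
          · exact h1
          · exact h2
        rcases hB y hy b (hsub b hb) a (hsub a ha) c (hsub c hc') e with ⟨h, -⟩ | ⟨h, -⟩
        · exact hy0 (h ▸ ha)
        · exact hy0 (h ▸ hc')
  have h3 := sound hG hB 54 _ _ _ _ _ _ _ hinv
  rw [c8] at h3
  exact Bool.false_ne_true h3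

theorem no9 (A : Finset (ZMod 9 × ZMod 9)) (hA : IsSidon A) : A.card ≠ 9 := by
  intro hc
  obtain ⟨B, hB, hcard, h0, h1, h2⟩ := normal (k := 9) 3 (by decide +kernel)
    (by decide +kernel) (by decide +kernel) A hA hc
  have hG : Good 9 11395724267687352188722688754123064480748012031 2999001359803012788153961276733812756333973578187265 := by
    refine ⟨?_, by decide +kernel, by decide +kernel⟩
    have key : ∀ p < 162, Nat.testBit 11395724267687352188722688754123064480748012031 p = true →
        p / (2 * 9) < 9 ∧ p % (2 * 9) < 9 := by decide +kernel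
    intro p hp
    exact key p (bit_lt (by decide +kernel) hp) hp
  have hinv : Inv 9 11395724267687352188722688754123064480748012031 B {(0, 0), (1, 0), (0, 1)} [8, 144, 0]
      786179209468280393376196486811938812634682171601056957955 66879965175013847184365608841856703783642581044200928637459165010922775247182117178075464729345 200639895525041541553096826525570111552971949248204859941640002457157274373080536813623639934210 11239619051297637826731938726214508289232732408 6 := by
    refine ⟨?_, ?_, by decide +kernel, ?_, ?_, ?_, ?_, ?_⟩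
    · intro y hy
      simp only [Finset.mem_insert, Finset.mem_singleton] at hy
      rcases hy with rfl | rfl | rfl
      · exact h0
      · exact h1
      · exact h2
    · rw [hcard]
      decide +kernel
    · have key : ∀ q < 342, Nat.testBit 786179209468280393376196486811938812634682171601056957955 q = true → el 9 q ∈ ({(0, 0), (1, 0), (0, 1)} : Finset (ZMod 9 × ZMod 9)) := by decide +kernel
      intro q hq
      exact key q (bit_lt (by decide +kernel) hq) hq
    · have key : ∀ q < 342, Nat.testBit 66879965175013847184365608841856703783642581044200928637459165010922775247182117178075464729345 q = true → -(el 9 q) ∈ ({(0, 0), (1, 0), (0, 1)} : Finset (ZMod 9 × ZMod 9)) := by decide +kernel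
      intro q hq
      exact key q (bit_lt (by decide +kernel) hq) hq
    · have key : ∀ q < 342, Nat.testBit 200639895525041541553096826525570111552971949248204859941640002457157274373080536813623639934210 q = true → ∃ a ∈ ({(0, 0), (1, 0), (0, 1)} : Finset (ZMod 9 × ZMod 9)),
          ∃ b ∈ ({(0, 0), (1, 0), (0, 1)} : Finset (ZMod 9 × ZMod 9)), el 9 q = a - b := by decide +kernel
      intro q hq
      exact key q (bit_lt (by decide +kernel) hq) hq
    · have key : ∀ q < 162, Nat.testBit 11239619051297637826731938726214508289232732408 q = true → Nat.testBit 11395724267687352188722688754123064480748012031 q = true := by decide +kernel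
      intro q hq
      exact key q (bit_lt (by decide +kernel) hq) hq
    · intro y hy hy0
      have key : ∀ y : ZMod 9 × ZMod 9, Nat.testBit 11239619051297637826731938726214508289232732408 (cd 9 y) = true ∨
          ∃ a ∈ ({(0, 0), (1, 0), (0, 1)} : Finset (ZMod 9 × ZMod 9)),
          ∃ b ∈ ({(0, 0), (1, 0), (0, 1)} : Finset (ZMod 9 × ZMod 9)),
          ∃ c ∈ ({(0, 0), (1, 0), (0, 1)} : Finset (ZMod 9 × ZMod 9)),
            y + b = a + c := by decide +kernel
      rcases key y with h | ⟨a, ha, b, hb, c, hc', e⟩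
      · exact h
      · exfalso
        have hsub : ∀ z ∈ ({(0, 0), (1, 0), (0, 1)} : Finset (ZMod 9 × ZMod 9)), z ∈ B := by
          intro z hz
          simp only [Finset.mem_insert, Finset.mem_singleton] at hz
          rcases hz with rfl | rfl | rfl
          · exact h0
          · exact h1
          · exact h2
        rcases hB y hy b (hsub b hb) a (hsub a ha) c (hsub c hc') e with ⟨h, -⟩ | ⟨h, -⟩
        · exact hy0 (h ▸ ha)
        · exact hy0 (h ▸ hc')
  have h3 := sound hG hB 71 _ _ _ _ _ _ _ hinv
  rw [c9] at h3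
  exact Bool.false_ne_true h3

end Pool.Agent.TH384.SD
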